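import Mathlib.Combinatorics.SimpleGraph.Finite
import Mathlib.Data.Set.Card
import Mathlib.Tactic

/-!
# The c-ranks of a graph and its complement
-/

namespace Pool.Agent.Results.MP_47eac2_co.FewestEdgesMax

open Finset Classical

section defs

variable {n : ℕ}

/-- `St(W)`: the vertices adjacent to all vertices of `W`. -/
noncomputable def St (G : SimpleGraph (Fin n)) (W : Finset (Fin n)) : Finset (Fin n) :=
  univ.filter (fun v => ∀ w ∈ W, G.Adj w v)

/-- The flats of `G`. -/
def IsFlat (G : SimpleGraph (Fin n)) (F : Finset (Fin n)) : Prop := ∃ W, F = St G W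

/-- The c-rank: the height of the lattice of flats, i.e. the largest `k` for which there is a
chain `p₀ ⊂ p₁ ⊂ … ⊂ p_k` of flats. -/
noncomputable def crk (G : SimpleGraph (Fin n)) : ℕ :=
  sSup {k | ∃ p : Fin (k + 1) → Finset (Fin n), StrictMono p ∧ ∀ i, IsFlat G (p i)}

end defs

/-- The maximum of `c-rk G + c-rk Gᶜ` over the graphs on `n` vertices. -/
noncomputable def M (n : ℕ) : ℕ := sSup {s | ∃ G : SimpleGraph (Fin n), crk G + crk Gᶜ = s}

/-- The smallest number of edges of a graph on `n` vertices with `c-rk G + c-rk Gᶜ = M n`. -/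
noncomputable def fewest (n : ℕ) : ℕ :=
  sInf {e | ∃ G : SimpleGraph (Fin n), crk G + crk Gᶜ = M n ∧ G.edgeSet.ncard = e}

/-! ## Triangular systems -/

/-- Triangular systems of order `k`. -/
def Tri {V : Type} (G : SimpleGraph V) (k : ℕ) (w v : ℕ → V) : Prop :=
  (∀ i, i < k → ¬ G.Adj (w i) (v i)) ∧ ∀ i j, i < j → j < k → G.Adj (w i) (v j)

theorem Tri.v_inj {V : Type} {G : SimpleGraph V} {k : ℕ} {w v : ℕ → V} (h : Tri G k w v)
    {i j : ℕ} (hi : i < k) (hj : j < k) (e : v i = v j) : i = j := by
  rcases Nat.lt_trichotomy i j with hij | hij | hij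
  · exact absurd (e ▸ h.2 i j hij hj) (h.1 i hi)
  · exact hij
  · exact absurd (e.symm ▸ h.2 j i hij hi) (h.1 j hj)

theorem Tri.w_inj {V : Type} {G : SimpleGraph V} {k : ℕ} {w v : ℕ → V} (h : Tri G k w v)
    {i j : ℕ} (hi : i < k) (hj : j < k) (e : w i = w j) : i = j := by
  rcases Nat.lt_trichotomy i j with hij | hij | hij
  · exact absurd (e ▸ h.2 i j hij hj) (h.1 j hj)
  · exact hij
  · exact absurd (e.symm ▸ h.2 j i hij hi) (h.1 i hi)

theorem Tri.ne {V : Type} {G : SimpleGraph V} {k : ℕ} {w v : ℕ → V} (h : Tri G k w v)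
    {i j : ℕ} (hij : i < j) (hj : j < k) : w i ≠ v j := (h.2 i j hij hj).ne

section crank

variable {n : ℕ}

theorem chain_of_tri {G : SimpleGraph (Fin n)} {k : ℕ} {w v : ℕ → Fin n} (h : Tri G k w v) :
    ∃ p : Fin (k + 1) → Finset (Fin n), StrictMono p ∧ ∀ i, IsFlat G (p i) := by
  refine ⟨fun i => St G ((range (k - i.val)).image w), ?_, fun i => ⟨_, rfl⟩⟩
  rw [Fin.strictMono_iff_lt_succ]
  intro i
  have hi := i.isLt
  rw [Finset.ssubset_iff_of_subset]
  · refine ⟨v (k - (i.val + 1)), ?_, ?_⟩
    · unfold St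
      rw [mem_filter]
      refine ⟨mem_univ _, ?_⟩
      intro x hx
      rw [mem_image] at hx
      obtain ⟨j, hj, rfl⟩ := hx
      rw [mem_range] at hj
      simp only [Fin.val_succ] at hj
      exact h.2 j _ hj (by omega)
    · unfold St
      rw [mem_filter]
      rintro ⟨-, h2⟩
      refine h.1 (k - (i.val + 1)) (by omega) (h2 _ ?_)
      rw [mem_image]
      refine ⟨k - (i.val + 1), ?_, rfl⟩
      rw [mem_range]
      simp only [Fin.val_castSucc]
      omega
  · intro x hx
    unfold St at hx ⊢
    rw [mem_filter] at hx ⊢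
    refine ⟨mem_univ _, ?_⟩
    intro y hy
    apply hx.2
    rw [mem_image] at hy ⊢
    obtain ⟨j, hj, rfl⟩ := hy
    rw [mem_range] at hj
    simp only [Fin.val_succ] at hj
    refine ⟨j, ?_, rfl⟩
    rw [mem_range]
    simp only [Fin.val_castSucc]
    omega

theorem tri_of_chain {G : SimpleGraph (Fin n)} (hn : 0 < n) {k : ℕ}
    (h : ∃ p : Fin (k + 1) → Finset (Fin n), StrictMono p ∧ ∀ i, IsFlat G (p i)) :
    ∃ w v, Tri G k w v := by
  obtain ⟨p, hp, hF⟩ := h
  have key : ∀ i : ℕ, ∃ x : Fin n × Fin n, i < k → (∀ hi : k - 1 - i < k + 1,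
      ∀ hi' : k - i < k + 1, ¬ G.Adj x.1 x.2 ∧ x.2 ∈ p ⟨k - i, hi'⟩ ∧
        ∀ y ∈ p ⟨k - 1 - i, hi⟩, G.Adj x.1 y) := by
    intro i
    by_cases hik : i < k
    · have hlt : p ⟨k - 1 - i, by omega⟩ < p ⟨k - i, by omega⟩ := by
        apply hp
        rw [Fin.mk_lt_mk]
        omega
      obtain ⟨v, hv1, hv2⟩ := (Finset.ssubset_iff_of_subset hlt.subset).1 hlt
      obtain ⟨W, hW⟩ := hF ⟨k - 1 - i, by omega⟩
      rw [hW] at hv2
      unfold St at hv2
      rw [mem_filter] at hv2
      have : ∃ w ∈ W, ¬ G.Adj w v := by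
        by_contra hc
        apply hv2
        refine ⟨mem_univ _, fun w hw => ?_⟩
        by_contra hna
        exact hc ⟨w, hw, hna⟩
      obtain ⟨w, hw, hna⟩ := this
      refine ⟨(w, v), fun _ hi hi' => ⟨hna, hv1, ?_⟩⟩
      intro y hy
      rw [hW] at hy
      unfold St at hy
      rw [mem_filter] at hy
      exact hy.2 w hw
    · exact ⟨(⟨0, hn⟩, ⟨0, hn⟩), fun h => absurd h hik⟩
  choose x hx using key
  refine ⟨fun i => (x i).1, fun i => (x i).2, ?_, ?_⟩
  · intro i hi
    exact (hx i hi (by omega) (by omega)).1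
  · intro i j hij hj
    apply (hx i (by omega) (by omega) (by omega)).2.2
    have h1 := (hx j hj (by omega) (by omega)).2.1
    have hle : p ⟨k - j, by omega⟩ ≤ p ⟨k - 1 - i, by omega⟩ := by
      apply hp.monotone
      rw [Fin.mk_le_mk]
      omega
    exact hle h1

theorem tri_le {G : SimpleGraph (Fin n)} {k : ℕ} {w v : ℕ → Fin n} (h : Tri G k w v) :
    k ≤ n := by
  have hinj : Function.Injective (fun i : Fin k => v i.val) := by
    intro i j e
    exact Fin.ext (h.v_inj i.isLt j.isLt e)
  have := Fintype.card_le_of_injective _ hinj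
  rwa [Fintype.card_fin, Fintype.card_fin] at this

theorem crk_bdd (hn : 0 < n) (G : SimpleGraph (Fin n)) : BddAbove {k | ∃ p : Fin (k + 1) →
    Finset (Fin n), StrictMono p ∧ ∀ i, IsFlat G (p i)} := by
  refine ⟨n, ?_⟩
  intro k hk
  obtain ⟨w, v, h⟩ := tri_of_chain hn hk
  exact tri_le h

theorem le_crk (hn : 0 < n) {G : SimpleGraph (Fin n)} {k : ℕ} {w v : ℕ → Fin n}
    (h : Tri G k w v) : k ≤ crk G := by
  unfold crk
  exact le_csSup (crk_bdd hn G) (chain_of_tri h)

theorem crk_tri (hn : 0 < n) (G : SimpleGraph (Fin n)) : ∃ w v, Tri G (crk G) w v := by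
  apply tri_of_chain hn
  have hne : {k | ∃ p : Fin (k + 1) → Finset (Fin n), StrictMono p ∧
      ∀ i, IsFlat G (p i)}.Nonempty := by
    refine ⟨0, fun _ => St G ∅, ?_, fun _ => ⟨_, rfl⟩⟩
    intro i j hij
    have h1 := i.isLt
    have h2 := j.isLt
    rw [Fin.lt_def] at hij
    omega
  exact Nat.sSup_mem hne (crk_bdd hn G)

theorem crk_le_of (hn : 0 < n) {G : SimpleGraph (Fin n)} {m : ℕ}
    (h : ∀ w v, ¬ Tri G (m + 1) w v) : crk G ≤ m := by
  by_contra hc
  obtain ⟨w, v, ht⟩ := crk_tri hn G
  apply h w v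
  exact ⟨fun i hi => ht.1 i (by omega), fun i j hij hj => ht.2 i j hij (by omega)⟩

end crank

/-! ## The upper bound `n + 2` -/

section upper

variable {V : Type} [Fintype V] {G : SimpleGraph V}

/-- The vertices which are still white after `t` steps. -/
def White (l : ℕ) (v' : ℕ → V) (t : ℕ) (x : V) : Prop := ∃ s, t ≤ s ∧ s < l ∧ v' s = x

/-- The active vertices after `t` steps. -/
noncomputable def active (G : SimpleGraph V) (l : ℕ) (v' : ℕ → V) (t : ℕ) : Finset V :=
  univ.filter (fun x => ¬ White l v' t x ∧ ∃ y, White l v' t y ∧ G.Adj x y)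

theorem active_le {l : ℕ} {w' v' : ℕ → V} (h : Tri Gᶜ l w' v') (t : ℕ) (ht : t ≤ l) :
    (active G l v' t).card + l ≤ Fintype.card V := by
  induction t with
  | zero =>
    have h1 : ((range l).image v').card = l := by
      rw [card_image_of_injOn, card_range]
      intro i hi j hj e
      rw [mem_coe, mem_range] at hi hj
      exact h.v_inj hi hj e
    have h2 : Disjoint (active G l v' 0) ((range l).image v') := by
      rw [disjoint_left]
      intro x hx hx'
      unfold active at hx
      rw [mem_filter] at hx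
      rw [mem_image] at hx'
      obtain ⟨s, hs, rfl⟩ := hx'
      exact hx.2.1 ⟨s, Nat.zero_le _, mem_range.1 hs, rfl⟩
    have h3 := card_le_univ (active G l v' 0 ∪ (range l).image v')
    rw [card_union_of_disjoint h2, h1] at h3
    exact h3
  | succ t ih =>
    have ih := ih (by omega)
    have htl : t < l := by omega
    suffices hs : (active G l v' (t + 1)).card ≤ (active G l v' t).card by omega
    have hsub : active G l v' (t + 1) ⊆ insert (v' t) (active G l v' t) := by
      intro x hx
      unfold active at hx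
      rw [mem_filter] at hx
      obtain ⟨-, h1, y, ⟨s, hs1, hs2, hs3⟩, h2⟩ := hx
      rw [mem_insert]
      by_cases hx0 : x = v' t
      · exact Or.inl hx0
      · right
        unfold active
        rw [mem_filter]
        refine ⟨mem_univ _, ?_, y, ⟨s, by omega, hs2, hs3⟩, h2⟩
        rintro ⟨s', h3, h4, h5⟩
        apply h1
        refine ⟨s', ?_, h4, h5⟩
        rcases Nat.lt_or_ge t s' with h6 | h6
        · omega
        · exfalso
          apply hx0
          rw [← h5]
          congr 1
          omega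
    have hw : w' t ∉ active G l v' (t + 1) := by
      intro hx
      unfold active at hx
      rw [mem_filter] at hx
      obtain ⟨-, -, y, ⟨s, hs1, hs2, hs3⟩, h2⟩ := hx
      have := h.2 t s (by omega) hs2
      rw [hs3, SimpleGraph.compl_adj] at this
      exact this.2 h2
    by_cases hwv : w' t = v' t
    · have : active G l v' (t + 1) ⊆ active G l v' t := by
        intro x hx
        rcases mem_insert.1 (hsub hx) with h1 | h1
        · rw [h1, ← hwv] at hx
          exact absurd hx hw
        · exact h1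
      exact card_le_card this
    · have hadj : G.Adj (w' t) (v' t) := by
        by_contra hna
        exact h.1 t htl ((SimpleGraph.compl_adj _ _ _).2 ⟨hwv, hna⟩)
      have hmem : w' t ∈ active G l v' t := by
        unfold active
        rw [mem_filter]
        refine ⟨mem_univ _, ?_, v' t, ⟨t, le_rfl, htl, rfl⟩, hadj⟩
        rintro ⟨s, h1, h2, h3⟩
        rcases Nat.lt_or_ge t s with h4 | h4
        · exact h.ne h4 h2 h3.symm
        · have : s = t := by omega
          rw [this] at h3
          exact hwv h3.symm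
      have hsub2 : active G l v' (t + 1) ⊆ (insert (v' t) (active G l v' t)).erase (w' t) := by
        intro x hx
        rw [mem_erase]
        exact ⟨fun e => hw (e ▸ hx), hsub hx⟩
      have h1 := card_le_card hsub2
      rw [card_erase_of_mem (mem_insert_of_mem hmem)] at h1
      have h2 := card_insert_le (v' t) (active G l v' t)
      omega

omit [Fintype V] in
/-- A system of `k` indices gives many elements. -/
theorem many {k : ℕ} {w v : ℕ → V} (h : Tri G k w v) (I : Finset ℕ) (c : ℕ) (S : Finset V)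
    (hI : ∀ i ∈ I, i < k) (hlow : ∀ i ∈ I, i < c → w i ∈ S) (hc : c ∉ I)
    (hhigh : ∀ i ∈ I, c < i → v i ∈ S) : I.card ≤ S.card := by
  apply card_le_card_of_injOn (fun i => if i < c then w i else v i)
  · intro i hi
    have hi' : i ∈ I := hi
    by_cases hic : i < c
    · simp only [if_pos hic]
      exact hlow i hi' hic
    · simp only [if_neg hic]
      apply hhigh i hi'
      rcases Nat.lt_or_ge c i with h1 | h1
      · exact h1
      · exfalso
        apply hc
        have : c = i := by omega
        rw [this]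
        exact hi'
  · intro i hi j hj e
    have hi' := hI i hi
    have hj' := hI j hj
    simp only at e
    by_cases hic : i < c
    · by_cases hjc : j < c
      · rw [if_pos hic, if_pos hjc] at e
        exact h.w_inj hi' hj' e
      · rw [if_pos hic, if_neg hjc] at e
        exact absurd e (h.ne (by omega) hj')
    · by_cases hjc : j < c
      · rw [if_neg hic, if_pos hjc] at e
        exact absurd e.symm (h.ne (by omega) hi')
      · rw [if_neg hic, if_neg hjc] at e
        exact h.v_inj hi' hj' e

theorem upper {k l : ℕ} {w v w' v' : ℕ → V} (h : Tri G k w v) (h' : Tri Gᶜ l w' v') :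
    k + l ≤ Fintype.card V + 2 := by
  -- the condition that a white `v a` and a white `w b` with `b ≤ a` exist
  let C : ℕ → Prop := fun t => ∃ a b, b ≤ a ∧ a < k ∧ White l v' t (v a) ∧ White l v' t (w b)
  have hCl : ¬ C l := by
    rintro ⟨a, b, -, -, ⟨s, h1, h2, -⟩, -⟩
    omega
  by_cases hC0 : C 0
  · -- the last time at which the condition holds
    obtain ⟨T, hT1, hT2, hT3⟩ : ∃ T, T < l ∧ C T ∧ ¬ C (T + 1) := by
      by_contra hc
      have : ∀ t, t ≤ l → C t := by
        intro t
        induction t with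
        | zero => exact fun _ => hC0
        | succ t ih =>
          intro ht
          by_contra hn
          exact hc ⟨t, by omega, ih (by omega), hn⟩
      exact hCl (this l le_rfl)
    have hact := active_le h' T hT1.le
    have hstep : ∀ x, White l v' T x → x ≠ v' T → White l v' (T + 1) x := by
      rintro x ⟨s, h1, h2, h3⟩ hne
      refine ⟨s, ?_, h2, h3⟩
      rcases Nat.lt_or_ge T s with h4 | h4
      · omega
      · exfalso
        apply hne
        rw [← h3]
        congr 1
        omega
    -- `a` maximal and `b` minimal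
    have hpair : ∀ a b, b ≤ a → a < k → White l v' T (v a) → White l v' T (w b) →
        v a = v' T ∨ w b = v' T := by
      intro a b hba hak h1 h2
      by_contra hc
      rw [not_or] at hc
      exact hT3 ⟨a, b, hba, hak, hstep _ h1 hc.1, hstep _ h2 hc.2⟩
    obtain ⟨a₀, b₀, hba₀, ha₀k, hva₀, hwb₀⟩ := hT2
    let A : Finset ℕ := (range k).filter (fun a => White l v' T (v a))
    let B : Finset ℕ := (range k).filter (fun b => White l v' T (w b))
    have hA : A.Nonempty := ⟨a₀, mem_filter.2 ⟨mem_range.2 ha₀k, hva₀⟩⟩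
    have hB : B.Nonempty := ⟨b₀, mem_filter.2 ⟨mem_range.2 (by omega), hwb₀⟩⟩
    obtain ⟨a, ha, hamax⟩ : ∃ a ∈ A, ∀ x ∈ A, x ≤ a := ⟨A.max' hA, A.max'_mem hA, fun x hx =>
      A.le_max' x hx⟩
    obtain ⟨b, hb, hbmin⟩ : ∃ b ∈ B, ∀ x ∈ B, b ≤ x := ⟨B.min' hB, B.min'_mem hB, fun x hx =>
      B.min'_le x hx⟩
    have ha' := mem_filter.1 ha
    have hb' := mem_filter.1 hb
    have hak : a < k := mem_range.1 ha'.1
    have hbk : b < k := mem_range.1 hb'.1
    have hba : b ≤ a := by
      have h1 := hamax a₀ (mem_filter.2 ⟨mem_range.2 ha₀k, hva₀⟩)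
      have h2 := hbmin b₀ (mem_filter.2 ⟨mem_range.2 (by omega), hwb₀⟩)
      omega
    -- the indices
    let I : Finset ℕ := ((range k).erase a).erase b
    have hIk : ∀ i ∈ I, i < k := by
      intro i hi
      exact mem_range.1 (mem_of_mem_erase (mem_of_mem_erase hi))
    have hIa : ∀ i ∈ I, i ≠ a := fun i hi => ne_of_mem_erase (mem_of_mem_erase hi)
    have hIb : ∀ i ∈ I, i ≠ b := fun i hi => ne_of_mem_erase hi
    have hIc : k ≤ I.card + 2 := by
      have h1 := pred_card_le_card_erase (s := (range k).erase a) (a := b)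
      have h2 := pred_card_le_card_erase (s := range k) (a := a)
      rw [card_range] at h2
      have h3 : I.card = (((range k).erase a).erase b).card := rfl
      omega
    have hvw : v a = w b → a = b := by
      intro e
      rcases Nat.lt_or_ge b a with h1 | h1
      · exact absurd e.symm (h.ne h1 hak)
      · omega
    suffices hs : I.card ≤ (active G l v' T).card by omega
    rcases hpair a b hba hak ha'.2 hb'.2 with hx | hx
    · -- `v a` turns blue
      apply many h I b _ hIk
      · intro i hi hib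
        unfold active
        rw [mem_filter]
        refine ⟨mem_univ _, ?_, v a, ha'.2, h.2 i a (by omega) hak⟩
        intro hw
        have := hbmin i (mem_filter.2 ⟨mem_range.2 (hIk i hi), hw⟩)
        omega
      · exact fun hb0 => hIb b hb0 rfl
      · intro j hj hbj
        unfold active
        rw [mem_filter]
        refine ⟨mem_univ _, ?_, w b, hb'.2, (h.2 b j hbj (hIk j hj)).symm⟩
        intro hv
        rcases hpair j b hbj.le (hIk j hj) hv hb'.2 with h1 | h1
        · exact hIa j hj (h.v_inj (hIk j hj) hak (h1.trans hx.symm))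
        · have h2 := hvw (hx.trans h1.symm)
          have h3 := hamax j (mem_filter.2 ⟨mem_range.2 (hIk j hj), hv⟩)
          omega
    · -- `w b` turns blue
      apply many h I a _ hIk
      · intro i hi hia
        unfold active
        rw [mem_filter]
        refine ⟨mem_univ _, ?_, v a, ha'.2, h.2 i a hia hak⟩
        intro hw
        rcases hpair a i hia.le hak ha'.2 hw with h1 | h1
        · have h2 := hvw (h1.trans hx.symm)
          have h3 := hbmin i (mem_filter.2 ⟨mem_range.2 (hIk i hi), hw⟩)
          omega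
        · exact hIb i hi (h.w_inj (hIk i hi) hbk (h1.trans hx.symm))
      · exact fun ha0 => hIa a ha0 rfl
      · intro j hj haj
        unfold active
        rw [mem_filter]
        refine ⟨mem_univ _, ?_, w b, hb'.2, (h.2 b j (by omega) (hIk j hj)).symm⟩
        intro hv
        have := hamax j (mem_filter.2 ⟨mem_range.2 (hIk j hj), hv⟩)
        omega
  · -- the condition fails from the start: at least `k` blue vertices
    have hl : ((range l).image v').card = l := by
      rw [card_image_of_injOn, card_range]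
      intro i hi j hj e
      rw [mem_coe, mem_range] at hi hj
      exact h'.v_inj hi hj e
    have hblue : ∀ x, ¬ White l v' 0 x → x ∈ univ \ (range l).image v' := by
      intro x hx
      rw [mem_sdiff, mem_image]
      refine ⟨mem_univ _, ?_⟩
      rintro ⟨s, hs, rfl⟩
      exact hx ⟨s, Nat.zero_le _, mem_range.1 hs, rfl⟩
    have hcard : (univ \ (range l).image v').card + l = Fintype.card V := by
      have := card_sdiff_add_card_eq_card (subset_univ ((range l).image v'))
      rw [hl, card_univ] at this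
      exact this
    let A : Finset ℕ := (range k).filter (fun a => White l v' 0 (v a))
    rcases A.eq_empty_or_nonempty with hA | hA
    · have : (range k).card ≤ (univ \ (range l).image v').card := by
        apply card_le_card_of_injOn v
        · intro i hi
          apply hblue
          intro hw
          have : i ∈ A := mem_filter.2 ⟨hi, hw⟩
          rw [hA] at this
          simp at this
        · intro i hi j hj e
          rw [mem_coe, mem_range] at hi hj
          exact h.v_inj hi hj e
      rw [card_range] at this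
      omega
    · obtain ⟨a, ha, hamax⟩ : ∃ a ∈ A, ∀ x ∈ A, x ≤ a := ⟨A.max' hA, A.max'_mem hA, fun x hx =>
        A.le_max' x hx⟩
      have ha' := mem_filter.1 ha
      have hak : a < k := mem_range.1 ha'.1
      have : ((range k).erase a).card ≤ (univ \ (range l).image v').card := by
        apply many h _ a
        · intro i hi
          exact mem_range.1 (mem_of_mem_erase hi)
        · intro i hi hia
          apply hblue
          intro hw
          exact hC0 ⟨a, i, hia.le, hak, ha'.2, hw⟩
        · exact fun h0 => ne_of_mem_erase h0 rfl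
        · intro j hj haj
          apply hblue
          intro hv
          have := hamax j (mem_filter.2 ⟨mem_of_mem_erase hj, hv⟩)
          omega
      rw [card_erase_of_mem (mem_range.2 hak), card_range] at this
      omega

end upper

section final

variable {n : ℕ}

theorem sum_le (hn : 0 < n) (G : SimpleGraph (Fin n)) : crk G + crk Gᶜ ≤ n + 2 := by
  obtain ⟨w, v, h⟩ := crk_tri hn G
  obtain ⟨w', v', h'⟩ := crk_tri hn Gᶜ
  have := upper h h'
  rwa [Fintype.card_fin] at this

theorem crk_le (hn : 0 < n) (G : SimpleGraph (Fin n)) : crk G ≤ n := by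
  obtain ⟨w, v, h⟩ := crk_tri hn G
  exact tri_le h

/-- A triangular system of order three gives three edges. -/
theorem three_edges {G : SimpleGraph (Fin n)} {w v : ℕ → Fin n} (h : Tri G 3 w v) :
    3 ≤ G.edgeSet.ncard := by
  have h01 := h.2 0 1 (by omega) (by omega)
  have h02 := h.2 0 2 (by omega) (by omega)
  have h12 := h.2 1 2 (by omega) (by omega)
  have hv : v 1 ≠ v 2 := fun e => by have := h.v_inj (by omega) (by omega) e; omega
  have hw : w 0 ≠ w 1 := fun e => by have := h.w_inj (by omega) (by omega) e; omega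
  have hsub : (({s(w 0, v 1), s(w 0, v 2), s(w 1, v 2)} : Finset (Sym2 (Fin n))) :
      Set (Sym2 (Fin n))) ⊆ G.edgeSet := by
    intro e he
    rw [mem_coe, mem_insert, mem_insert, mem_singleton] at he
    rcases he with rfl | rfl | rfl
    · exact h01
    · exact h02
    · exact h12
  have hcard : ({s(w 0, v 1), s(w 0, v 2), s(w 1, v 2)} : Finset (Sym2 (Fin n))).card = 3 := by
    rw [card_eq_three]
    refine ⟨_, _, _, ?_, ?_, ?_, rfl⟩
    · intro e
      rw [Sym2.eq_iff] at e
      rcases e with ⟨-, e⟩ | ⟨e, -⟩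
      · exact hv e
      · exact h02.ne e
    · intro e
      rw [Sym2.eq_iff] at e
      rcases e with ⟨e, -⟩ | ⟨e, -⟩
      · exact hw e
      · exact h02.ne e
    · intro e
      rw [Sym2.eq_iff] at e
      rcases e with ⟨e, -⟩ | ⟨e, -⟩
      · exact hw e
      · exact h02.ne e
  rw [← hcard, ← Set.ncard_coe_finset]
  exact Set.ncard_le_ncard hsub (Set.toFinite _)

theorem crk_le_two (hn : 0 < n) {G : SimpleGraph (Fin n)} (h : G.edgeSet.ncard ≤ 2) :
    crk G ≤ 2 := by
  apply crk_le_of hn
  intro w v ht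
  have := three_edges ht
  omega

/-- If `G` has an edge, the c-rank of the complement is at most `n - 1`. -/
theorem compl_le (hn : 0 < n) {G : SimpleGraph (Fin n)} {x y : Fin n} (hxy : G.Adj x y) :
    crk Gᶜ ≤ n - 1 := by
  apply crk_le_of hn
  intro w v ht
  have hn1 : n - 1 + 1 = n := by omega
  rw [hn1] at ht
  have hsurj : ∀ z : Fin n, ∃ i, i < n ∧ v i = z := by
    have hinj : Function.Injective (fun i : Fin n => v i.val) := by
      intro i j e
      exact Fin.ext (ht.v_inj i.isLt j.isLt e)
    intro z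
    obtain ⟨i, hi⟩ := Finite.surjective_of_injective hinj z
    exact ⟨i.val, i.isLt, hi⟩
  -- the first non-isolated vertex
  have hex : ∃ i, i < n ∧ ∃ z, G.Adj (v i) z := by
    obtain ⟨i, hi, e⟩ := hsurj x
    exact ⟨i, hi, y, by rw [e]; exact hxy⟩
  obtain ⟨hi1, z, hz⟩ := Nat.find_spec hex
  have hmin : ∀ j, j < Nat.find hex → ¬ (j < n ∧ ∃ z, G.Adj (v j) z) := fun j hj =>
    Nat.find_min hex hj
  generalize Nat.find hex = i at hi1 hz hmin
  -- later vertices are not dominated by `w i`
  have hlater : ∀ u, (u = w i ∨ G.Adj (w i) u) → (∃ z, G.Adj u z) → u = v i := by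
    intro u hu hz'
    obtain ⟨j, hj, rfl⟩ := hsurj u
    rcases Nat.lt_trichotomy j i with h1 | h1 | h1
    · exact absurd ⟨hj, hz'⟩ (hmin j h1)
    · rw [h1]
    · exfalso
      have h2 := ht.2 i j h1 hj
      rw [SimpleGraph.compl_adj] at h2
      rcases hu with h3 | h3
      · exact h2.1 h3.symm
      · exact h2.2 h3
  have hwi : ¬ Gᶜ.Adj (w i) (v i) := ht.1 i hi1
  rw [SimpleGraph.compl_adj, not_and_or, not_not, not_not] at hwi
  have hnb : ∃ z, G.Adj (w i) z := by
    rcases hwi with h1 | h1
    · exact ⟨z, by rw [h1]; exact hz⟩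
    · exact ⟨_, h1⟩
  have e1 := hlater (w i) (Or.inl rfl) hnb
  obtain ⟨z', hz'⟩ := hnb
  have e2 := hlater z' (Or.inr hz') ⟨_, hz'.symm⟩
  rw [e1, e2] at hz'
  exact hz'.ne rfl

/-- With at most two edges the sum is at most `n + 1`. -/
theorem few_edges (hn : 0 < n) {G : SimpleGraph (Fin n)} (h : G.edgeSet.ncard ≤ 2) :
    crk G + crk Gᶜ ≤ n + 1 := by
  by_cases hE : ∃ x y, G.Adj x y
  · obtain ⟨x, y, hxy⟩ := hE
    have h1 := compl_le hn hxy
    have h2 := crk_le_two hn h
    have h3 : x ≠ y := hxy.ne
    have h4 : 2 ≤ n := by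
      by_contra hc
      apply h3
      have h1 := x.isLt
      have h2 := y.isLt
      exact Fin.ext (by omega)
    omega
  · have h1 : crk G ≤ 1 := by
      apply crk_le_of hn
      intro w v ht
      exact hE ⟨_, _, ht.2 0 1 (by omega) (by omega)⟩
    have h2 := crk_le hn Gᶜ
    omega

theorem edges_compl (G : SimpleGraph (Fin n)) :
    2 * (G.edgeSet.ncard + Gᶜ.edgeSet.ncard) ≤ n * (n - 1) := by
  have h1 : Disjoint G.edgeSet Gᶜ.edgeSet := by
    rw [Set.disjoint_left]
    intro e
    induction e with
    | _ x y =>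
      intro h1 h2
      exact ((SimpleGraph.compl_adj G x y).1 h2).2 h1
  rw [← Set.ncard_union_eq h1 (Set.toFinite _) (Set.toFinite _)]
  have h2 : G.edgeSet ∪ Gᶜ.edgeSet ⊆ (⊤ : SimpleGraph (Fin n)).edgeSet := by
    intro e
    induction e with
    | _ x y =>
      rintro (h | h)
      · exact SimpleGraph.Adj.ne h
      · exact ((SimpleGraph.compl_adj G x y).1 h).1
  have h3 := Set.ncard_le_ncard h2 (Set.toFinite _)
  have h4 : (⊤ : SimpleGraph (Fin n)).edgeSet.ncard = n.choose 2 := by
    rw [← SimpleGraph.coe_edgeFinset, Set.ncard_coe_finset,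
      SimpleGraph.card_edgeFinset_top_eq_card_choose_two, Fintype.card_fin]
  rw [h4, Nat.choose_two_right] at h3
  have h5 : 2 * (n * (n - 1) / 2) = n * (n - 1) :=
    Nat.mul_div_cancel' (Nat.even_mul_pred_self _).two_dvd
  omega

theorem small_le (hn : 0 < n) (h3 : n ≤ 3) (G : SimpleGraph (Fin n)) :
    crk G + crk Gᶜ ≤ n + 1 := by
  have h := edges_compl G
  have h6 : n * (n - 1) ≤ 6 := by
    have : n = 1 ∨ n = 2 ∨ n = 3 := by omega
    rcases this with rfl | rfl | rfl <;> norm_num
  rcases Nat.lt_or_ge (G.edgeSet.ncard) 3 with h1 | h1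
  · exact few_edges hn (by omega)
  · have := few_edges hn (G := Gᶜ) (by omega)
    rw [compl_compl] at this
    omega

/-- The edgeless graph. -/
theorem bot_ge (hn : 0 < n) : n + 1 ≤ crk (⊥ : SimpleGraph (Fin n)) +
    crk (⊥ : SimpleGraph (Fin n))ᶜ := by
  have h1 : 1 ≤ crk (⊥ : SimpleGraph (Fin n)) := by
    apply le_crk hn (w := fun _ => ⟨0, hn⟩) (v := fun _ => ⟨0, hn⟩)
    refine ⟨fun i _ h => h.ne rfl, fun i j hij hj => ?_⟩
    omega
  have h2 : n ≤ crk (⊥ : SimpleGraph (Fin n))ᶜ := by
    apply le_crk hn (w := fun i => if h : i < n then ⟨i, h⟩ else ⟨0, hn⟩)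
      (v := fun i => if h : i < n then ⟨i, h⟩ else ⟨0, hn⟩)
    refine ⟨fun i _ h => h.ne rfl, fun i j hij hj => ?_⟩
    rw [SimpleGraph.compl_adj]
    refine ⟨?_, fun h => h⟩
    simp only [dif_pos (by omega : i < n), dif_pos hj]
    intro e
    rw [Fin.mk.injEq] at e
    omega
  omega

/-- The path `0 - 1 - 2 - 3` together with isolated vertices. -/
def PG (n : ℕ) : SimpleGraph (Fin n) where
  Adj x y := (x.val < 4 ∧ y.val < 4) ∧ (x.val = y.val + 1 ∨ y.val = x.val + 1)
  symm := by
    constructor
    rintro x y ⟨⟨h1, h2⟩, h3⟩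
    exact ⟨⟨h2, h1⟩, h3.symm⟩
  loopless := by
    constructor
    rintro x ⟨_, h⟩
    omega

theorem PG_edges (hn : 4 ≤ n) : (PG n).edgeSet.ncard = 3 := by
  have e : (PG n).edgeSet = (({s((⟨0, by omega⟩ : Fin n), ⟨1, by omega⟩),
      s((⟨1, by omega⟩ : Fin n), ⟨2, by omega⟩), s((⟨2, by omega⟩ : Fin n), ⟨3, by omega⟩)} :
        Finset (Sym2 (Fin n))) : Set (Sym2 (Fin n))) := by
    ext e
    induction e with
    | _ x y =>
      rw [SimpleGraph.mem_edgeSet, mem_coe, mem_insert, mem_insert, mem_singleton, Sym2.eq_iff,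
        Sym2.eq_iff, Sym2.eq_iff, Fin.ext_iff, Fin.ext_iff, Fin.ext_iff, Fin.ext_iff,
        Fin.ext_iff, Fin.ext_iff, Fin.ext_iff, Fin.ext_iff]
      change ((x.val < 4 ∧ y.val < 4) ∧ (x.val = y.val + 1 ∨ y.val = x.val + 1)) ↔ _
      simp only
      omega
  rw [e, Set.ncard_coe_finset, card_eq_three]
  refine ⟨_, _, _, ?_, ?_, ?_, rfl⟩
  · intro h
    rw [Sym2.eq_iff] at h
    simp only [Fin.mk.injEq] at h
    omega
  · intro h
    rw [Sym2.eq_iff] at h
    simp only [Fin.mk.injEq] at h
    omega
  · intro h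
    rw [Sym2.eq_iff] at h
    simp only [Fin.mk.injEq] at h
    omega

theorem PG_ge (hn : 4 ≤ n) : n + 2 ≤ crk (PG n) + crk (PG n)ᶜ := by
  have hn0 : 0 < n := by omega
  have adj : ∀ x y : Fin n, (PG n).Adj x y ↔
      (x.val < 4 ∧ y.val < 4) ∧ (x.val = y.val + 1 ∨ y.val = x.val + 1) := fun _ _ => Iff.rfl
  let g : ℕ → Fin n := fun i => if h : i < n then ⟨i, h⟩ else ⟨0, hn0⟩
  have hg : ∀ i, i < n → (g i).val = i := by
    intro i hi
    simp only [g, dif_pos hi]
  have h1 : 3 ≤ crk (PG n) := by
    apply le_crk hn0 (w := fun i => g (if i = 0 then 1 else if i = 1 then 3 else 0))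
      (v := fun i => g (if i = 0 then 1 else if i = 1 then 0 else 2))
    refine ⟨fun i hi => ?_, fun i j hij hj => ?_⟩
    · simp only
      rw [adj, hg (if i = 0 then 1 else if i = 1 then 3 else 0) (by split_ifs <;> omega),
        hg (if i = 0 then 1 else if i = 1 then 0 else 2) (by split_ifs <;> omega)]
      have : i = 0 ∨ i = 1 ∨ i = 2 := by omega
      rcases this with rfl | rfl | rfl <;> simp
    · simp only
      rw [adj, hg (if i = 0 then 1 else if i = 1 then 3 else 0) (by split_ifs <;> omega),
        hg (if j = 0 then 1 else if j = 1 then 0 else 2) (by split_ifs <;> omega)]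
      have : (i = 0 ∧ j = 1) ∨ (i = 0 ∧ j = 2) ∨ (i = 1 ∧ j = 2) := by omega
      rcases this with ⟨rfl, rfl⟩ | ⟨rfl, rfl⟩ | ⟨rfl, rfl⟩ <;> simp
  have h2 : n - 1 ≤ crk (PG n)ᶜ := by
    apply le_crk hn0
      (w := fun i => g (if i < n - 4 then i + 4 else i - (n - 4)))
      (v := fun i => g (if i < n - 4 then i + 4 else if i = n - 4 then 0 else i - (n - 4) + 1))
    refine ⟨fun i hi => ?_, fun i j hij hj => ?_⟩
    · simp only
      rw [SimpleGraph.compl_adj, adj, Ne, Fin.ext_iff,
        hg (if i < n - 4 then i + 4 else i - (n - 4)) (by split_ifs <;> omega),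
        hg (if i < n - 4 then i + 4 else if i = n - 4 then 0 else i - (n - 4) + 1)
          (by split_ifs <;> omega)]
      by_cases hi4 : i < n - 4
      · rw [if_pos hi4, if_pos hi4]
        exact fun h => h.1 rfl
      · rw [if_neg hi4, if_neg hi4]
        by_cases hi5 : i = n - 4
        · rw [if_pos hi5]
          omega
        · rw [if_neg hi5]
          omega
    · simp only
      rw [SimpleGraph.compl_adj, adj, Ne, Fin.ext_iff,
        hg (if i < n - 4 then i + 4 else i - (n - 4)) (by split_ifs <;> omega),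
        hg (if j < n - 4 then j + 4 else if j = n - 4 then 0 else j - (n - 4) + 1)
          (by split_ifs <;> omega)]
      split_ifs <;> first | omega | (simp only [not_false_eq_true, true_and, or_false]; omega)
  omega

end final

/-- The values of `M(n)`. -/
theorem M_eq (n : ℕ) (hn : 1 ≤ n) : M n = if n ≤ 3 then n + 1 else n + 2 := by
  have hbdd : BddAbove {s | ∃ G : SimpleGraph (Fin n), crk G + crk Gᶜ = s} := by
    refine ⟨n + 2, ?_⟩
    rintro s ⟨G, rfl⟩
    exact sum_le hn G
  have hle : M n ≤ if n ≤ 3 then n + 1 else n + 2 := by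
    have hne : {s | ∃ G : SimpleGraph (Fin n), crk G + crk Gᶜ = s}.Nonempty := ⟨_, ⊥, rfl⟩
    apply csSup_le hne
    rintro s ⟨G, rfl⟩
    split_ifs with h
    · exact small_le hn h G
    · exact sum_le hn G
  apply le_antisymm hle
  split_ifs with h
  · exact (bot_ge hn).trans (le_csSup hbdd ⟨⊥, rfl⟩)
  · exact (PG_ge (by omega)).trans (le_csSup hbdd ⟨PG n, rfl⟩)

/-- The smallest number of edges of a graph on `n ≥ 1` vertices with
`c-rk G + c-rk Gᶜ = M n` is `0` for `n ≤ 3` and `3` for `n ≥ 4`; here `M n = n + 1` for `n ≤ 3`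
and `M n = n + 2` for `n ≥ 4`. -/
theorem result (n : ℕ) (hn : 1 ≤ n) :
    M n = (if n ≤ 3 then n + 1 else n + 2) ∧ fewest n = (if n ≤ 3 then 0 else 3) := by
  refine ⟨M_eq n hn, ?_⟩
  unfold fewest
  rw [M_eq n hn]
  split_ifs with h
  · apply Nat.eq_zero_of_le_zero
    apply Nat.sInf_le
    refine ⟨⊥, le_antisymm (small_le hn h _) (bot_ge hn), ?_⟩
    rw [SimpleGraph.edgeSet_bot, Set.ncard_empty]
  · apply le_antisymm
    · apply Nat.sInf_le
      exact ⟨PG n, le_antisymm (sum_le hn _) (PG_ge (by omega)), PG_edges (by omega)⟩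
    · have hne : {e | ∃ G : SimpleGraph (Fin n), crk G + crk Gᶜ = n + 2 ∧
          G.edgeSet.ncard = e}.Nonempty :=
        ⟨3, PG n, le_antisymm (sum_le hn _) (PG_ge (by omega)), PG_edges (by omega)⟩
      obtain ⟨G, h1, h2⟩ := Nat.sInf_mem hne
      rw [← h2]
      by_contra hc
      have := few_edges hn (G := G) (by omega)
      omega

end Pool.Agent.Results.MP_47eac2_co.FewestEdgesMax
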